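import Pool.Agent.V5helper19.QC.Stm

/-!
# Project QC (helper19), job D2: the size of the second derivative at the saddle point
-/

set_option autoImplicit false

open Finset

namespace V5helper12.QC

open V5helper19.QC

theorem real_term (m : ℕ) (α : ℝ) (hα : 0 < α) :
    (m : ℂ) ^ 2 * e1 ((m : ℂ) * (α : ℂ)) = ((hh ((m : ℝ) * α) / α ^ 2 : ℝ) : ℂ) := by
  have h1 : (α : ℂ) ≠ 0 := Complex.ofReal_ne_zero.2 hα.ne'
  unfold e1 hh
  push_cast
  rw [mul_pow]
  field_simp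

theorem LD2_real (n : ℕ) (α : ℝ) (hα : 0 < α) :
    LD2 n (α : ℂ) = (((∑ j ∈ Icc 2 n, (hh ((j : ℝ) * α) - hh (((n + j : ℕ) : ℝ) * α))) / α ^ 2 : ℝ) : ℂ) := by
  unfold LD2
  rw [sum_div, Complex.ofReal_sum]
  refine sum_congr rfl fun j _ => ?_
  rw [real_term j α hα, real_term (n + j) α hα, sub_div, Complex.ofReal_sub]

theorem geom_bound (α : ℝ) (hα : 0 < α) (hα1 : α ≤ 1) (m : ℕ) :
    ∑ j ∈ range m, Real.exp (-((j : ℝ) * α / 2)) ≤ 4 / α := by
  have h1 : ∀ j : ℕ, Real.exp (-((j : ℝ) * α / 2)) = Real.exp (-(α / 2)) ^ j := by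
    intro j
    rw [← Real.exp_nat_mul]
    congr 1
    ring
  simp only [h1]
  have h2 := mul_neg_geom_sum (Real.exp (-(α / 2))) m
  have h3 : 0 < Real.exp (-(α / 2)) ^ m := pow_pos (Real.exp_pos _) _
  have h4 : α / 4 ≤ 1 - Real.exp (-(α / 2)) := by
    have h5 : Real.exp (-(α / 2)) ≤ 1 / (1 + α / 2) := by
      rw [Real.exp_neg, ← one_div]
      exact one_div_le_one_div_of_le (by positivity) (by linarith [Real.add_one_le_exp (α / 2)])
    have h6 : 1 / (1 + α / 2) ≤ 1 - α / 4 := by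
      rw [div_le_iff₀ (by positivity)]
      nlinarith
    linarith
  have h7 : 0 ≤ ∑ i ∈ range m, Real.exp (-(α / 2)) ^ i := sum_nonneg fun i _ => pow_nonneg (Real.exp_pos _).le _
  rw [le_div_iff₀ hα]
  nlinarith

/-- Job D2. -/
theorem t_D2 (h : S_H2) : S_D2 := by
  obtain ⟨h1, hanti, ⟨C, hC, hexp⟩, ⟨c, hc, hlow⟩⟩ := h
  refine ⟨c / 2, 4 * C + 4, by positivity, by positivity, ?_⟩
  intro n α hn hα hN
  refine ⟨_, LD2_real n α hα, ?_⟩
  have hn' : (2 : ℝ) ≤ n := by exact_mod_cast hn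
  have hα2 : 0 < α ^ 2 := by positivity
  have hterm : ∀ j ∈ Icc 2 n, 0 ≤ hh ((j : ℝ) * α) - hh (((n + j : ℕ) : ℝ) * α) := by
    intro j hj
    have hj2 : (2 : ℝ) ≤ j := by exact_mod_cast (mem_Icc.1 hj).1
    have := hanti ((j : ℝ) * α) (((n + j : ℕ) : ℝ) * α) (by positivity) (by push_cast; nlinarith)
    linarith
  have hcard : ((Icc 2 n).card : ℝ) = n - 1 := by
    rw [Nat.card_Icc, show n + 1 - 2 = n - 1 by omega, Nat.cast_sub (by omega)]
    norm_num
  rcases le_total ((n : ℝ)) (1 / α) with hle | hle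
  · have hNN : NN n α = n := min_eq_left hle
    rw [hNN]
    have hnα : (n : ℝ) * α ≤ 1 := by
      rwa [le_div_iff₀ hα] at hle
    constructor
    · rw [le_div_iff₀ hα2]
      have h2 : ∀ j ∈ Icc 2 n, c * (n : ℝ) ^ 2 * α ^ 2 ≤ hh ((j : ℝ) * α) - hh (((n + j : ℕ) : ℝ) * α) := by
        intro j hj
        have hj2 : (2 : ℝ) ≤ j := by exact_mod_cast (mem_Icc.1 hj).1
        have hjn : (j : ℝ) ≤ n := by exact_mod_cast (mem_Icc.1 hj).2
        have h3 := hlow ((j : ℝ) * α) (((n + j : ℕ) : ℝ) * α) (by positivity) (by push_cast; nlinarith)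
          (by push_cast; nlinarith)
        refine le_trans ?_ h3
        push_cast
        have h4 : (n : ℝ) ^ 2 * α ^ 2 ≤ (((n : ℝ) + j) * α) ^ 2 - (j * α) ^ 2 := by
          have : (((n : ℝ) + j) * α) ^ 2 - (j * α) ^ 2 = (n : ℝ) ^ 2 * α ^ 2 + 2 * n * j * α ^ 2 := by ring
          rw [this]
          have : 0 ≤ 2 * (n : ℝ) * j * α ^ 2 := by positivity
          linarith
        calc c * (n : ℝ) ^ 2 * α ^ 2 = c * ((n : ℝ) ^ 2 * α ^ 2) := by ring
          _ ≤ _ := mul_le_mul_of_nonneg_left h4 hc.le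
      have h3 := sum_le_sum h2
      rw [sum_const, nsmul_eq_mul, hcard] at h3
      refine le_trans ?_ h3
      have h4 : (n : ℝ) / 2 ≤ n - 1 := by linarith
      have h5 : 0 ≤ c * (n : ℝ) ^ 2 * α ^ 2 := by positivity
      calc c / 2 * (n : ℝ) ^ 3 * α ^ 2 = (n / 2) * (c * (n : ℝ) ^ 2 * α ^ 2) := by ring
        _ ≤ _ := mul_le_mul_of_nonneg_right h4 h5
    · rw [div_le_iff₀ hα2]
      have h2 : ∀ j ∈ Icc 2 n, hh ((j : ℝ) * α) - hh (((n + j : ℕ) : ℝ) * α) ≤ 4 * (n : ℝ) ^ 2 * α ^ 2 := by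
        intro j hj
        have hj2 : (2 : ℝ) ≤ j := by exact_mod_cast (mem_Icc.1 hj).1
        have hjn : (j : ℝ) ≤ n := by exact_mod_cast (mem_Icc.1 hj).2
        have h3 := (h1 ((j : ℝ) * α) (by positivity)).2.1
        have h4 := (h1 (((n + j : ℕ) : ℝ) * α) (by positivity)).2.2
        have h5 : ((((n + j : ℕ) : ℝ)) * α) ^ 2 ≤ 4 * (n : ℝ) ^ 2 * α ^ 2 := by
          rw [mul_pow]
          refine mul_le_mul_of_nonneg_right ?_ hα2.le
          push_cast
          nlinarith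
        linarith
      have h3 := sum_le_sum h2
      rw [sum_const, nsmul_eq_mul, hcard] at h3
      refine h3.trans ?_
      have h5 : 0 ≤ 4 * (n : ℝ) ^ 2 * α ^ 2 := by positivity
      calc ((n : ℝ) - 1) * (4 * (n : ℝ) ^ 2 * α ^ 2) ≤ n * (4 * (n : ℝ) ^ 2 * α ^ 2) :=
            mul_le_mul_of_nonneg_right (by linarith) h5
        _ = 4 * (n : ℝ) ^ 3 * α ^ 2 := by ring
        _ ≤ _ := by
          refine mul_le_mul_of_nonneg_right ?_ hα2.le
          refine mul_le_mul_of_nonneg_right ?_ (by positivity)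
          linarith
  · have hNN : NN n α = 1 / α := min_eq_right hle
    rw [hNN] at hN ⊢
    have hnα : 1 ≤ (n : ℝ) * α := by
      rwa [div_le_iff₀ hα] at hle
    have hα4 : α ≤ 1 / 4 := by
      rw [le_div_iff₀ hα] at hN
      linarith
    constructor
    · rw [le_div_iff₀ hα2]
      have hsub : Icc 2 ⌊1 / α⌋₊ ⊆ Icc 2 n := by
        refine Icc_subset_Icc le_rfl ?_
        have : (⌊1 / α⌋₊ : ℝ) ≤ n := (Nat.floor_le (by positivity)).trans hle
        exact_mod_cast this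
      have h2 : ∀ j ∈ Icc 2 ⌊1 / α⌋₊, c ≤ hh ((j : ℝ) * α) - hh (((n + j : ℕ) : ℝ) * α) := by
        intro j hj
        have hj2 : (2 : ℝ) ≤ j := by exact_mod_cast (mem_Icc.1 hj).1
        have hjα : (j : ℝ) * α ≤ 1 := by
          have h3 : (j : ℝ) ≤ (⌊1 / α⌋₊ : ℝ) := by exact_mod_cast (mem_Icc.1 hj).2
          have h4 : (j : ℝ) ≤ 1 / α := h3.trans (Nat.floor_le (by positivity))
          rwa [le_div_iff₀ hα] at h4
        have h3 := hanti ((j : ℝ) * α + 1) (((n + j : ℕ) : ℝ) * α) (by positivity) (by push_cast; nlinarith)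
        have h4 := hlow ((j : ℝ) * α) ((j : ℝ) * α + 1) (by positivity) (by linarith) (by linarith)
        have h5 : c * 1 ≤ c * (((j : ℝ) * α + 1) ^ 2 - ((j : ℝ) * α) ^ 2) := by
          refine mul_le_mul_of_nonneg_left ?_ hc.le
          have : 0 ≤ (j : ℝ) * α := by positivity
          nlinarith
        linarith
      have h3 := sum_le_sum h2
      have h4 := sum_le_sum_of_subset_of_nonneg hsub (f := fun j : ℕ => hh ((j : ℝ) * α) - hh (((n + j : ℕ) : ℝ) * α))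
        fun j hj _ => hterm j hj
      rw [sum_const, nsmul_eq_mul, Nat.card_Icc] at h3
      refine le_trans ?_ (h3.trans h4)
      have h5 : 1 / α / 2 ≤ ((⌊1 / α⌋₊ + 1 - 2 : ℕ) : ℝ) := by
        have h6 : (1 / α : ℝ) < ⌊1 / α⌋₊ + 1 := Nat.lt_floor_add_one _
        have h7 : ((⌊1 / α⌋₊ : ℕ) : ℝ) ≤ ((⌊1 / α⌋₊ + 1 - 2 : ℕ) : ℝ) + 1 := by
          have : ⌊1 / α⌋₊ ≤ (⌊1 / α⌋₊ + 1 - 2) + 1 := by omega
          exact_mod_cast this
        linarith
      calc c / 2 * (1 / α) ^ 3 * α ^ 2 = (1 / α / 2) * c := by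
            field_simp
        _ ≤ _ := mul_le_mul_of_nonneg_right h5 hc.le
    · rw [div_le_iff₀ hα2]
      have h2 : ∀ j ∈ Icc 2 n, hh ((j : ℝ) * α) - hh (((n + j : ℕ) : ℝ) * α) ≤
          C * Real.exp (-((j : ℝ) * α / 2)) := by
        intro j hj
        have hj2 : (2 : ℝ) ≤ j := by exact_mod_cast (mem_Icc.1 hj).1
        have h3 := hexp ((j : ℝ) * α) (by positivity)
        have h4 := (h1 (((n + j : ℕ) : ℝ) * α) (by positivity)).1
        linarith
      have h3 := sum_le_sum h2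
      rw [← mul_sum] at h3
      have h4 : ∑ j ∈ Icc 2 n, Real.exp (-((j : ℝ) * α / 2)) ≤ ∑ j ∈ range (n + 1), Real.exp (-((j : ℝ) * α / 2)) := by
        refine sum_le_sum_of_subset_of_nonneg (fun j hj => ?_) fun j _ _ => (Real.exp_pos _).le
        rw [mem_range]
        have := (mem_Icc.1 hj).2
        omega
      have h5 := geom_bound α hα (by linarith) (n + 1)
      have h6 : C * ∑ j ∈ Icc 2 n, Real.exp (-((j : ℝ) * α / 2)) ≤ C * (4 / α) :=
        mul_le_mul_of_nonneg_left (h4.trans h5) hC.le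
      refine (h3.trans h6).trans ?_
      have h7 : (4 * C + 4) * (1 / α) ^ 3 * α ^ 2 = C * (4 / α) + 4 / α := by
        field_simp
      rw [h7]
      have : 0 < 4 / α := by positivity
      linarith

end V5helper12.QC
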